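import Pool.Agent.Helper84.GD.Defs

/-!
# The decomposition of `ℂ ⊗ F` for a number field `F`
-/

set_option autoImplicit false

open TensorProduct

namespace Pool.Agent.Helper84.GD

variable {F : Type} [Field F] [NumberField F]

/-- the values at all embeddings -/
noncomputable def vals : F →ₗ[ℚ] ((F →+* ℂ) → ℂ) where
  toFun f σ := σ f
  map_add' f g := by funext σ; exact map_add σ f g
  map_smul' c f := by
    funext σ
    rw [RingHom.id_apply, Pi.smul_apply]
    exact map_rat_smul σ c f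

/-- The components of an element of `ℂ ⊗ F`. -/
noncomputable def phi : ℂ ⊗[ℚ] F →ₗ[ℂ] ((F →+* ℂ) → ℂ) := LinearMap.liftBaseChange ℂ vals

lemma phi_tmul (z : ℂ) (f : F) (σ : F →+* ℂ) : phi (z ⊗ₜ[ℚ] f) σ = z * σ f := rfl

lemma phi_mul (f : F) (x : ℂ ⊗[ℚ] F) (σ : F →+* ℂ) :
    phi ((1 : ℂ) ⊗ₜ[ℚ] f * x) σ = σ f * phi x σ := by
  induction x with
  | zero => rw [mul_zero, map_zero, Pi.zero_apply, mul_zero]
  | add x y hx hy => rw [mul_add, map_add, map_add, Pi.add_apply, Pi.add_apply, hx, hy, mul_add]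
  | tmul z g =>
    rw [Algebra.TensorProduct.tmul_mul_tmul, phi_tmul, phi_tmul, one_mul, map_mul]
    ring

/-- Dedekind's theorem. -/
lemma dedekind (a : (F →+* ℂ) → ℂ) (h : ∀ f : F, ∑ σ, a σ * σ f = 0) : a = 0 := by
  have h1 : LinearIndependent ℂ (fun σ : F →+* ℂ => (⇑(σ : F →* ℂ) : F → ℂ)) := by
    refine (linearIndependent_monoidHom F ℂ).comp (fun σ : F →+* ℂ => (σ : F →* ℂ)) ?_
    intro σ τ hst
    ext x
    exact DFunLike.congr_fun hst x
  have h2 := Fintype.linearIndependent_iff.mp h1 a (by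
    funext f
    rw [Finset.sum_apply]
    exact h f)
  funext σ
  exact h2 σ

lemma phi_surjective : Function.Surjective (phi (F := F)) := by
  classical
  rw [← LinearMap.range_eq_top]
  by_contra hne
  obtain ⟨ψ, hψ, hle⟩ := (LinearMap.range (phi (F := F))).exists_le_ker_of_lt_top
    (lt_top_iff_ne_top.mpr hne)
  apply hψ
  have h1 : ∀ y : (F →+* ℂ) → ℂ, ψ y = ∑ σ, ψ (Pi.single σ 1) * y σ := by
    intro y
    have h2 : y = ∑ σ, y σ • (Pi.single σ (1 : ℂ) : (F →+* ℂ) → ℂ) := by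
      funext τ
      rw [Finset.sum_apply, Finset.sum_eq_single τ]
      · rw [Pi.smul_apply, Pi.single_eq_same, smul_eq_mul, mul_one]
      · intro σ _ hσ
        rw [Pi.smul_apply, Pi.single_eq_of_ne hσ.symm, smul_zero]
      · intro h
        exact absurd (Finset.mem_univ _) h
    conv_lhs => rw [h2]
    rw [map_sum]
    refine Finset.sum_congr rfl fun σ _ => ?_
    rw [map_smul, smul_eq_mul, mul_comm]
  have h3 : (fun σ => ψ (Pi.single σ 1)) = 0 := by
    refine dedekind _ fun f => ?_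
    have h4 : phi ((1 : ℂ) ⊗ₜ[ℚ] f) ∈ LinearMap.ker ψ := hle ⟨_, rfl⟩
    rw [LinearMap.mem_ker, h1] at h4
    rw [← h4]
    refine Finset.sum_congr rfl fun σ _ => ?_
    rw [phi_tmul, one_mul]
  refine LinearMap.ext fun y => ?_
  rw [h1, LinearMap.zero_apply]
  refine Finset.sum_eq_zero fun σ _ => ?_
  have h5 := congrFun h3 σ
  change ψ (Pi.single σ 1) = 0 at h5
  rw [h5, zero_mul]

lemma phi_injective : Function.Injective (phi (F := F)) := by
  have h1 : Module.finrank ℂ (ℂ ⊗[ℚ] F) = Module.finrank ℂ ((F →+* ℂ) → ℂ) := by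
    rw [Module.finrank_baseChange, Module.finrank_fintype_fun_eq_card,
      NumberField.Embeddings.card F ℂ]
  exact (LinearMap.injective_iff_surjective_of_finrank_eq_finrank h1).mpr phi_surjective

lemma phi_ext {x y : ℂ ⊗[ℚ] F} (h : ∀ σ, phi x σ = phi y σ) : x = y :=
  phi_injective (funext h)

open Classical in
/-- The idempotents of `ℂ ⊗ F`. -/
noncomputable def idem (σ : F →+* ℂ) : ℂ ⊗[ℚ] F :=
  (phi_surjective (Pi.single σ (1 : ℂ) : (F →+* ℂ) → ℂ)).choose

open Classical in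
lemma phi_idem (σ τ : F →+* ℂ) : phi (idem σ) τ = if τ = σ then 1 else 0 := by
  have h := (phi_surjective (Pi.single σ (1 : ℂ) : (F →+* ℂ) → ℂ)).choose_spec
  rw [idem, h, Pi.single_apply]

lemma phi_idem_self (σ : F →+* ℂ) : phi (idem σ) σ = 1 := by
  rw [phi_idem, if_pos rfl]

lemma eq_sum_idem (x : ℂ ⊗[ℚ] F) : x = ∑ σ, phi x σ • idem σ := by
  classical
  apply phi_ext
  intro τ
  rw [map_sum, Finset.sum_apply, Finset.sum_eq_single τ]
  · rw [map_smul, Pi.smul_apply, phi_idem_self, smul_eq_mul, mul_one]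
  · intro σ _ hσ
    rw [map_smul, Pi.smul_apply, phi_idem, if_neg hσ.symm, smul_zero]
  · intro h
    exact absurd (Finset.mem_univ _) h

lemma mem_line {σ : F →+* ℂ} {x : ℂ ⊗[ℚ] F} : InLine σ x ↔ x = phi x σ • idem σ := by
  classical
  constructor
  · intro h
    apply phi_ext
    intro τ
    rw [map_smul, Pi.smul_apply, phi_idem, smul_eq_mul]
    by_cases hτ : τ = σ
    · rw [if_pos hτ, mul_one, hτ]
    · rw [if_neg hτ, mul_zero]
      obtain ⟨f, hf⟩ : ∃ f, τ f ≠ σ f := by
        by_contra hc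
        push Not at hc
        exact hτ (RingHom.ext hc)
      have h1 : phi ((1 : ℂ) ⊗ₜ[ℚ] f * x) τ = phi (σ f • x) τ := by rw [h f]
      rw [phi_mul, map_smul, Pi.smul_apply, smul_eq_mul] at h1
      have h2 : (τ f - σ f) * phi x τ = 0 := by linear_combination h1
      exact (mul_eq_zero.mp h2).resolve_left (sub_ne_zero.mpr hf)
  · intro h f
    apply phi_ext
    intro τ
    rw [phi_mul, map_smul, Pi.smul_apply, smul_eq_mul]
    by_cases hτ : τ = σ
    · rw [hτ]
    · have h1 : phi x τ = 0 := by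
        rw [h, map_smul, Pi.smul_apply, phi_idem, if_neg hτ, smul_zero]
      rw [h1, mul_zero, mul_zero]

lemma idem_mem (σ : F →+* ℂ) : InLine σ (idem σ) := by
  rw [mem_line, phi_idem_self, one_smul]

lemma InLine.smul {σ : F →+* ℂ} {z : ℂ ⊗[ℚ] F} (hz : InLine σ z) (c : ℂ) : InLine σ (c • z) :=
  fun f => by rw [mul_smul_comm, hz f, smul_comm]

section flat

variable {V W : Type} [AddCommGroup V] [Module ℚ V] [AddCommGroup W] [Module ℚ W]

/-- Elements of `ℂ ⊗ V` in the common kernel of the extensions of rational maps. -/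
lemma common_kernel {T : Type} {W : T → Type} [∀ t, AddCommGroup (W t)] [∀ t, Module ℚ (W t)]
    (g : ∀ t, V →ₗ[ℚ] W t) (x : ℂ ⊗[ℚ] V) (hx : ∀ t, (g t).baseChange ℂ x = 0) :
    ∃ (s : Finset (Module.Basis.ofVectorSpaceIndex ℚ ℂ)) (v : Module.Basis.ofVectorSpaceIndex ℚ ℂ → V),
      (∀ i t, g t (v i) = 0) ∧ x = ∑ i ∈ s, (i : ℂ) ⊗ₜ[ℚ] v i := by
  classical
  let b := Module.Basis.ofVectorSpace ℚ ℂ
  let e := TensorProduct.equivFinsuppOfBasisLeft (N := V) b
  have key : ∀ t (y : ℂ ⊗[ℚ] V) i, TensorProduct.equivFinsuppOfBasisLeft (N := W t) b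
      ((g t).baseChange ℂ y) i = g t (e y i) := by
    intro t y i
    induction y with
    | zero => simp
    | add y z hy hz => rw [map_add, map_add, Finsupp.add_apply, hy, hz, map_add, Finsupp.add_apply,
        map_add]
    | tmul z v =>
      rw [LinearMap.baseChange_tmul, TensorProduct.equivFinsuppOfBasisLeft_apply_tmul_apply,
        TensorProduct.equivFinsuppOfBasisLeft_apply_tmul_apply, map_smul]
  refine ⟨(e x).support, fun i => e x i, fun i t => ?_, ?_⟩
  · rw [← key, hx t, map_zero, Finsupp.zero_apply]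
  · have h1 : e.symm (e x) = (e x).sum fun i m => b i ⊗ₜ[ℚ] m :=
      TensorProduct.equivFinsuppOfBasisLeft_symm_apply b (e x)
    rw [e.symm_apply_apply, Finsupp.sum] at h1
    refine h1.trans (Finset.sum_congr rfl fun i _ => ?_)
    have h2 : b i = (i : ℂ) := Module.Basis.ofVectorSpace_apply_self ℚ ℂ i
    rw [h2]

end flat

/-- The components at two embeddings which agree on the common kernel. -/
lemma phi_eq_of_kernel {T : Type} {W : T → Type} [∀ t, AddCommGroup (W t)] [∀ t, Module ℚ (W t)]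
    (g : ∀ t, F →ₗ[ℚ] W t) (x : ℂ ⊗[ℚ] F) (hx : ∀ t, (g t).baseChange ℂ x = 0) {σ τ : F →+* ℂ}
    (h : ∀ f, (∀ t, g t f = 0) → σ f = τ f) : phi x σ = phi x τ := by
  obtain ⟨s, v, hv, rfl⟩ := common_kernel g x hx
  rw [map_sum, Finset.sum_apply, Finset.sum_apply]
  refine Finset.sum_congr rfl fun i _ => ?_
  rw [phi_tmul, phi_tmul, h (v i) (hv i)]

end Pool.Agent.Helper84.GD
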