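import Mathlib

/-!
# Hodge structures with a de Rham structure, and the Gross-Deligne conjecture: definitions
-/

set_option autoImplicit false

open TensorProduct

namespace Pool.Agent.Helper84.GD

/-- A rational vector space `B`, a vector space `D` over the field `k ⊆ ℂ`, the comparison isomorphism
`comp` and the Hodge pieces `hodge p q` of `ℂ ⊗ B`. -/
structure HS (k : Type) [Field k] [Algebra k ℂ] where
  B : Type
  [addB : AddCommGroup B]
  [modB : Module ℚ B]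
  D : Type
  [addD : AddCommGroup D]
  [modD : Module k D]
  comp : (ℂ ⊗[k] D) ≃ₗ[ℂ] (ℂ ⊗[ℚ] B)
  hodge : ℤ → ℤ → Submodule ℂ (ℂ ⊗[ℚ] B)

attribute [instance] HS.addB HS.modB HS.addD HS.modD

variable {k : Type} [Field k] [Algebra k ℂ]

/-- `M` is a finite direct sum of rational Hodge structures (of any weights) with a de Rham structure over
`k`: the rational vector space is finite dimensional and `ℂ ⊗ B` is the direct sum of the Hodge
pieces. -/
def IsHS (M : HS k) : Prop :=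
  Module.Finite ℚ M.B ∧ DirectSum.IsInternal fun t : ℤ × ℤ => M.hodge t.1 t.2

/-- The image `ρ(ω)` of `ω ∈ D` in `ℂ ⊗ B`. -/
noncomputable def HS.img (M : HS k) (ω : M.D) : ℂ ⊗[ℚ] M.B := M.comp (1 ⊗ₜ[k] ω)

/-- The extension of a rational linear form on `V` to `ℂ ⊗ V`. -/
noncomputable def ext {V : Type} [AddCommGroup V] [Module ℚ V] (γ : V →ₗ[ℚ] ℚ) :
    ℂ ⊗[ℚ] V →ₗ[ℂ] ℂ :=
  (TensorProduct.AlgebraTensorModule.rid ℚ ℂ ℂ).toLinearMap ∘ₗ γ.baseChange ℂ

/-- The period of `ω` with respect to the linear form `γ`. -/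
noncomputable def HS.period (M : HS k) (γ : M.B →ₗ[ℚ] ℚ) (ω : M.D) : ℂ := ext γ (M.img ω)

/-- The number field `F` acts on `z ∈ ℂ ⊗ F` through the embedding `σ`: `z` is in the line
`F_σ = F ⊗_{F, σ} ℂ`. -/
def InLine {F : Type} [Field F] [NumberField F] (σ : F →+* ℂ) (z : ℂ ⊗[ℚ] F) : Prop :=
  ∀ f : F, (1 : ℂ) ⊗ₜ[ℚ] f * z = σ f • z

/-- A sub-Hodge structure `H = i(F)` of `M`, of weight `w`, with multiplication by the number field `F`,
`dim_ℚ H = [F : ℚ]` (`F` acts on `H` by the multiplication of `F`), with elements `ω σ ∈ D` such that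
`ρ(ω σ)` spans the line `H_σ` for every embedding `σ` of `F`; the Hodge type of the line `H_σ` is
`(p σ, w - p σ)`. -/
structure IsAdmissible (M : HS k) {F : Type} [Field F] [NumberField F] (i : F →ₗ[ℚ] M.B)
    (ω : (F →+* ℂ) → M.D) (w : ℤ) (p : (F →+* ℂ) → ℤ) : Prop where
  injective : Function.Injective i
  spans : ∀ σ, ∃ z, InLine σ z ∧ z ≠ 0 ∧ M.img (ω σ) = i.baseChange ℂ z
  hodge : ∀ σ, M.img (ω σ) ∈ M.hodge (p σ) (w - p σ)

section cyclotomic

variable (d : ℕ) [NeZero d]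

lemma exp_prim (l : (ZMod d)ˣ) : Complex.exp (2 * (Real.pi : ℂ) * Complex.I *
    (((l : ZMod d).val : ℂ) / (d : ℂ))) ∈ primitiveRoots d ℂ :=
  (mem_primitiveRoots (NeZero.pos d)).mpr
    (Complex.isPrimitiveRoot_exp_of_coprime _ _ (NeZero.ne d) (ZMod.val_coe_unit_coprime l))

/-- the cyclotomic field with its (unique) structure of an algebra over `ℚ` -/
instance cycInst : IsCyclotomicExtension {d} ℚ (CyclotomicField d ℚ) :=
  CyclotomicField.isCyclotomicExtension d ℚ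

/-- The embedding of the `d`-th cyclotomic field which maps the root of unity `ζ` to
`exp(2 π i l / d)`. -/
noncomputable def cyc (l : (ZMod d)ˣ) : CyclotomicField d ℚ →+* ℂ :=
  (((IsCyclotomicExtension.zeta_spec d ℚ (CyclotomicField d ℚ)).embeddingsEquivPrimitiveRoots ℂ
    (Polynomial.cyclotomic.irreducible_rat (NeZero.pos d))).symm ⟨_, exp_prim d l⟩).toRingHom

lemma cyc_zeta (l : (ZMod d)ˣ) :
    cyc d l (IsCyclotomicExtension.zeta d ℚ (CyclotomicField d ℚ)) =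
      Complex.exp (2 * (Real.pi : ℂ) * Complex.I * (((l : ZMod d).val : ℂ) / (d : ℂ))) := by
  have h := congrArg Subtype.val (((IsCyclotomicExtension.zeta_spec d ℚ
    (CyclotomicField d ℚ)).embeddingsEquivPrimitiveRoots ℂ
    (Polynomial.cyclotomic.irreducible_rat (NeZero.pos d))).apply_symm_apply ⟨_, exp_prim d l⟩)
  rw [IsPrimitiveRoot.embeddingsEquivPrimitiveRoots_apply_coe] at h
  exact h

/-- The product `∏_a Γ(1 - a/d)^{ε(a λ⁻¹)}` for `0 ≤ a < d` (the factor for `a = 0` is `1`). -/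
noncomputable def gam (ε : ZMod d → ℚ) (l : (ZMod d)ˣ) : ℝ :=
  ∏ a : ZMod d, Real.Gamma (1 - (a.val : ℝ) / d) ^ ((ε (a * ((l⁻¹ : (ZMod d)ˣ) : ZMod d)) : ℚ) : ℝ)

end cyclotomic

/-- `x = a y` with a non-zero algebraic number `a`. -/
def Sim (x y : ℂ) : Prop := ∃ a : ℂ, IsAlgebraic ℚ a ∧ a ≠ 0 ∧ x = a * y

/-- **The Gross-Deligne conjecture for `M`, at the level `d` and for the Hodge type `h`.** Let `F` be a
subfield of the `d`-th cyclotomic field, `H = i(F)` a sub-Hodge structure of `M` with multiplication by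
`F`, and `ω σ` classes in `D` which span the lines `H_σ`, of Hodge type `(p σ, w - p σ)`, such that
`p(λ) = h(λ) + c` for a constant `c` (here `p(λ) = p(σ)` for the restriction `σ` to `F` of the embedding
`cyc d λ`). Then, for all `ε` with `d p(λ) = ∑_a ε(a) ⟨λ a⟩`, the period of `ω σ` is
`∏_a Γ(1 - a/d)^{ε(a λ⁻¹)}`, up to a non-zero algebraic factor. -/
def GrossDeligne (d : ℕ) [NeZero d] (h : (ZMod d)ˣ → ℤ) (M : HS k) : Prop :=
  ∀ (F : Type) [Field F] [NumberField F] (j : F →+* CyclotomicField d ℚ) (i : F →ₗ[ℚ] M.B)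
    (ω : (F →+* ℂ) → M.D) (w c : ℤ) (p : (F →+* ℂ) → ℤ), IsAdmissible M i ω w p →
    (∀ l : (ZMod d)ˣ, p ((cyc d l).comp j) = h l + c) →
    ∀ ε : ZMod d → ℚ,
      (∀ l : (ZMod d)ˣ, (d : ℚ) * ((h l + c : ℤ) : ℚ) =
        ∑ a : ZMod d, ε a * (((l : ZMod d) * a).val : ℚ)) →
      ∀ (l : (ZMod d)ˣ) (γ : M.B →ₗ[ℚ] ℚ), γ ∘ₗ i ≠ 0 →
        Sim (M.period γ (ω ((cyc d l).comp j))) (gam d ε l)

/-- The theorem of Koblitz and Ogus at the level `d`: if `∑_a ε(a) ⟨λ a⟩ = 0` for all units `λ` then the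
gamma products of `ε` are algebraic. -/
def KoblitzOgus (d : ℕ) [NeZero d] : Prop :=
  ∀ ε : ZMod d → ℚ, (∀ l : (ZMod d)ˣ, ∑ a : ZMod d, ε a * (((l : ZMod d) * a).val : ℚ) = 0) →
    ∀ l : (ZMod d)ˣ, IsAlgebraic ℚ (gam d ε l : ℂ)

/-- The rational map `b` and the map `d` between the vector spaces over `k` are a morphism `M → N`: they
respect the comparison isomorphisms and the Hodge pieces. -/
def IsHom {M N : HS k} (b : M.B →ₗ[ℚ] N.B) (d : M.D →ₗ[k] N.D) : Prop :=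
  (∀ ω : M.D, N.img (d ω) = b.baseChange ℂ (M.img ω)) ∧
    ∀ (p q : ℤ) (x : ℂ ⊗[ℚ] M.B), x ∈ M.hodge p q → b.baseChange ℂ x ∈ N.hodge p q

/-- `N` is the Tate twist `M(-1)`: it has the same spaces, but the comparison isomorphism is multiplied by
`2 π i` and the Hodge types are shifted by `(1, 1)`. -/
def IsTateTwist (N M : HS k) : Prop :=
  ∃ (e : N.B ≃ₗ[ℚ] M.B) (e' : N.D ≃ₗ[k] M.D),
    (∀ ω : N.D, e.toLinearMap.baseChange ℂ (N.img ω) =
      (2 * (Real.pi : ℂ) * Complex.I) • M.img (e' ω)) ∧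
    ∀ (p q : ℤ) (x : ℂ ⊗[ℚ] N.B), x ∈ N.hodge p q ↔
      e.toLinearMap.baseChange ℂ x ∈ M.hodge (p - 1) (q - 1)

/-- `M` is a direct sum of unit objects `ℚ(0)`: all classes have Hodge type `(0, 0)` and all rational
classes come from the de Rham structure. -/
def IsConstant (M : HS k) : Prop := M.hodge 0 0 = ⊤ ∧ ∀ v : M.B, ∃ ω : M.D, M.img ω = 1 ⊗ₜ[ℚ] v

end Pool.Agent.Helper84.GD
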