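import Pool.Agent.Helper84.GD.Comp

/-!
# Subfields cut out by linear maps; linear forms on number fields
-/

set_option autoImplicit false

open TensorProduct

namespace Pool.Agent.Helper84.GD

section subfield

variable {F : Type} [Field F] [NumberField F] {J : Type} {N : J → Type}
  [∀ j, AddCommGroup (N j)] [∀ j, Module ℚ (N j)] (g : ∀ j, F →ₗ[ℚ] N j)

/-- the common kernel of the maps `h ↦ g j (f h)`, `(f, j) ∈ S` -/
def ker (S : Set (F × J)) : Submodule ℚ F where
  carrier := {h | ∀ t ∈ S, g t.2 (t.1 * h) = 0}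
  add_mem' := fun {a b} ha hb t ht => by rw [mul_add, map_add, ha t ht, hb t ht, add_zero]
  zero_mem' := fun t _ => by rw [mul_zero, map_zero]
  smul_mem' := fun c h hh t ht => by rw [mul_smul_comm, map_smul, hh t ht, smul_zero]

lemma mem_ker {S : Set (F × J)} {h : F} : h ∈ ker g S ↔ ∀ t ∈ S, g t.2 (t.1 * h) = 0 := Iff.rfl

/-- multiplication of the index set -/
def mulSet (S : Set (F × J)) (e : F) : Set (F × J) := (fun t => (t.1 * e, t.2)) '' S

lemma mem_ker_mulSet {S : Set (F × J)} {e h : F} : h ∈ ker g (mulSet S e) ↔ e * h ∈ ker g S := by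
  rw [mem_ker, mem_ker]
  constructor
  · intro hh t ht
    have := hh _ ⟨t, ht, rfl⟩
    rwa [mul_assoc] at this
  · rintro hh _ ⟨t, ht, rfl⟩
    have := hh t ht
    rwa [← mul_assoc] at this

lemma ker_union {S S' : Set (F × J)} {h : F} :
    h ∈ ker g (S ∪ S') ↔ h ∈ ker g S ∧ h ∈ ker g S' := by
  rw [mem_ker, mem_ker, mem_ker]
  constructor
  · intro hh
    exact ⟨fun t ht => hh t (Or.inl ht), fun t ht => hh t (Or.inr ht)⟩
  · rintro ⟨h1, h2⟩ t (ht | ht)
    · exact h1 t ht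
    · exact h2 t ht

/-- **Minimal common kernels are subfields.** If the maps `g j` are jointly injective then there is a
subfield `K`, a common kernel of maps `h ↦ g j (f h)`, such that some `g j` is injective on `K`. -/
theorem exists_subfield (hg : ∀ h, (∀ j, g j h = 0) → h = 0) :
    ∃ (K : IntermediateField ℚ F) (S : Set (F × J)) (j : J),
      (∀ h, h ∈ K ↔ ∀ t ∈ S, g t.2 (t.1 * h) = 0) ∧ ∀ h ∈ K, g j h = 0 → h = 0 := by
  classical
  have hex : ∃ n, ∃ S : Set (F × J), ker g S ≠ ⊥ ∧ Module.finrank ℚ (ker g S) = n := by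
    refine ⟨_, ∅, ?_, rfl⟩
    intro h
    have h1 : (1 : F) ∈ ker g ∅ := fun t ht => absurd ht (Set.notMem_empty t)
    rw [h, Submodule.mem_bot] at h1
    exact one_ne_zero h1
  obtain ⟨S0, hS0, hn⟩ := Nat.find_spec hex
  have hmin : ∀ S : Set (F × J), ker g S ≠ ⊥ → Module.finrank ℚ (ker g S0) ≤
      Module.finrank ℚ (ker g S) := by
    intro S hS
    rw [hn]
    exact Nat.find_min' hex ⟨S, hS, rfl⟩
  obtain ⟨e, he, he0⟩ := Submodule.exists_mem_ne_zero_of_ne_bot hS0
  let S := mulSet S0 e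
  have h1 : (1 : F) ∈ ker g S := by
    rw [mem_ker_mulSet, mul_one]
    exact he
  have hne : ker g S ≠ ⊥ := by
    intro h
    rw [h, Submodule.mem_bot] at h1
    exact one_ne_zero h1
  have hle : Module.finrank ℚ (ker g S) ≤ Module.finrank ℚ (ker g S0) := by
    let m : ker g S →ₗ[ℚ] ker g S0 :=
      (LinearMap.mulLeft ℚ e).restrict fun h hh => (mem_ker_mulSet g).mp hh
    refine LinearMap.finrank_le_finrank_of_injective (f := m) ?_
    intro a b hab
    have h2 : e * (a : F) = e * b := congrArg Subtype.val hab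
    exact Subtype.ext (mul_left_cancel₀ he0 h2)
  have hmin' : ∀ S' : Set (F × J), ker g (S ∪ S') ≠ ⊥ → ker g S ≤ ker g S' := by
    intro S' hS'
    have h2 : ker g (S ∪ S') ≤ ker g S := fun h hh => ((ker_union g).mp hh).1
    have h3 : ker g (S ∪ S') = ker g S :=
      Submodule.eq_of_le_of_finrank_le h2 (hle.trans (hmin _ hS'))
    intro h hh
    rw [← h3] at hh
    exact ((ker_union g).mp hh).2
  have hinv : ∀ h ∈ ker g S, h ≠ 0 → ∀ h' ∈ ker g S, h⁻¹ * h' ∈ ker g S := by
    intro h hh hh0 h' hh'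
    have h2 : ker g (S ∪ mulSet S h⁻¹) ≠ ⊥ := by
      intro h3
      have h4 : h ∈ ker g (S ∪ mulSet S h⁻¹) := by
        refine (ker_union g).mpr ⟨hh, (mem_ker_mulSet g).mpr ?_⟩
        rw [inv_mul_cancel₀ hh0]
        exact h1
      rw [h3, Submodule.mem_bot] at h4
      exact hh0 h4
    exact (mem_ker_mulSet g).mp (hmin' _ h2 hh')
  have hinv1 : ∀ h ∈ ker g S, h⁻¹ ∈ ker g S := by
    intro h hh
    by_cases h0 : h = 0
    · rw [h0, inv_zero]
      exact (ker g S).zero_mem
    · have := hinv h hh h0 1 h1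
      rwa [mul_one] at this
  have hmul : ∀ h ∈ ker g S, ∀ h' ∈ ker g S, h * h' ∈ ker g S := by
    intro h hh h' hh'
    by_cases h0 : h = 0
    · rw [h0, zero_mul]
      exact (ker g S).zero_mem
    · have := hinv h⁻¹ (hinv1 h hh) (inv_ne_zero h0) h' hh'
      rwa [inv_inv] at this
  let A : Subalgebra ℚ F :=
    { carrier := ker g S
      mul_mem' := fun {a b} ha hb => hmul a ha b hb
      add_mem' := fun {a b} ha hb => (ker g S).add_mem ha hb
      algebraMap_mem' := fun r => by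
        rw [Algebra.algebraMap_eq_smul_one]
        exact (ker g S).smul_mem r h1 }
  let K : IntermediateField ℚ F := A.toIntermediateField fun x hx => hinv1 x hx
  have hK : ∀ h, h ∈ K ↔ h ∈ ker g S := fun h => Iff.rfl
  obtain ⟨j, hj⟩ : ∃ j, g j 1 ≠ 0 := by
    by_contra hc
    push Not at hc
    exact one_ne_zero (hg 1 hc)
  refine ⟨K, S, j, fun h => (hK h).trans (mem_ker g), fun h hh hh0 => ?_⟩
  by_contra h0
  have h2 : ker g (S ∪ {((1 : F), j)}) ≠ ⊥ := by
    intro h3
    have h4 : h ∈ ker g (S ∪ {((1 : F), j)}) := by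
      rw [ker_union]
      refine ⟨(hK h).mp hh, ?_⟩
      rintro t rfl
      rw [one_mul]
      exact hh0
    rw [h3, Submodule.mem_bot] at h4
    exact h0 h4
  have h3 := hmin' _ h2 h1
  have h4 := h3 ((1 : F), j) rfl
  rw [one_mul] at h4
  exact hj h4

end subfield

section forms

variable {F : Type} [Field F] [NumberField F]

lemma ext_tmul {V : Type} [AddCommGroup V] [Module ℚ V] (γ : V →ₗ[ℚ] ℚ) (z : ℂ) (v : V) :
    ext γ (z ⊗ₜ[ℚ] v) = z * (γ v : ℂ) := by
  have h : ext γ (z ⊗ₜ[ℚ] v) = γ v • z := by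
    rw [ext, LinearMap.comp_apply, LinearMap.baseChange_tmul]
    exact TensorProduct.AlgebraTensorModule.rid_tmul (A := ℂ) (γ v) z
  rw [h, Rat.smul_def, mul_comm]

lemma ext_comp {V W : Type} [AddCommGroup V] [Module ℚ V] [AddCommGroup W] [Module ℚ W]
    (γ : W →ₗ[ℚ] ℚ) (i : V →ₗ[ℚ] W) (x : ℂ ⊗[ℚ] V) :
    ext γ (i.baseChange ℂ x) = ext (γ ∘ₗ i) x := by
  induction x with
  | zero => rw [map_zero, map_zero, map_zero]
  | add x y hx hy => rw [map_add, map_add, hx, hy, map_add]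
  | tmul z v => rw [LinearMap.baseChange_tmul, ext_tmul, ext_tmul, LinearMap.comp_apply]

lemma trace_eq (x : F) : ((Algebra.trace ℚ F x : ℚ) : ℂ) = ∑ σ : F →+* ℂ, σ x := by
  have h := trace_eq_sum_embeddings (K := ℚ) (L := F) ℂ (x := x)
  have h2 : ∑ σ : F →ₐ[ℚ] ℂ, σ x = ∑ σ : F →+* ℂ, σ x :=
    Fintype.sum_equiv (RingHom.equivRatAlgHom F ℂ).symm _ _ fun σ => rfl
  rw [← h2, ← h]
  rfl

lemma isAlgebraic_val (σ : F →+* ℂ) (x : F) : IsAlgebraic ℚ (σ x) := by
  have h := (Algebra.IsAlgebraic.isAlgebraic (R := ℚ) x).algHom (f := σ.toRatAlgHom)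
  exact h

/-- A nonzero linear form on `F`, extended to `ℂ ⊗ F`, has nonzero algebraic values at the
idempotents. -/
lemma ext_idem (γ : F →ₗ[ℚ] ℚ) (hγ : γ ≠ 0) (σ : F →+* ℂ) :
    IsAlgebraic ℚ (ext γ (idem σ)) ∧ ext γ (idem σ) ≠ 0 := by
  let e := (Algebra.traceForm ℚ F).toDual (traceForm_nondegenerate ℚ F)
  let y : F := e.symm γ
  have hy : ∀ f, γ f = Algebra.trace ℚ F (y * f) := by
    intro f
    have h1 : e y = γ := e.apply_symm_apply γ
    rw [← h1]
    rfl
  have hy0 : y ≠ 0 := by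
    intro h
    apply hγ
    ext f
    rw [hy, h, zero_mul, map_zero, LinearMap.zero_apply]
  have h1 : ∀ x : ℂ ⊗[ℚ] F, ext γ x = ∑ τ : F →+* ℂ, τ y * phi x τ := by
    intro x
    induction x with
    | zero => simp
    | add a b ha hb =>
      rw [map_add, ha, hb, ← Finset.sum_add_distrib]
      refine Finset.sum_congr rfl fun τ _ => ?_
      rw [map_add, Pi.add_apply, mul_add]
    | tmul z f =>
      rw [ext_tmul, hy, trace_eq, Finset.mul_sum]
      refine Finset.sum_congr rfl fun τ _ => ?_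
      rw [phi_tmul, map_mul]
      ring
  have h2 : ext γ (idem σ) = σ y := by
    classical
    rw [h1, Finset.sum_eq_single σ]
    · rw [phi_idem_self, mul_one]
    · intro τ _ hτ
      rw [phi_idem, if_neg hτ, mul_zero]
    · intro h
      exact absurd (Finset.mem_univ _) h
  rw [h2]
  exact ⟨isAlgebraic_val σ y, (map_ne_zero σ).mpr hy0⟩

end forms

section base

variable {k : Type} [Field k] [Algebra k ℂ] [CharZero k]

lemma exists_of_algebraic [IsAlgClosed k] {z : ℂ} (hz : IsAlgebraic ℚ z) :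
    ∃ a : k, algebraMap k ℂ a = z := by
  let p := minpoly ℚ z
  have hp0 : p ≠ 0 := minpoly.ne_zero hz.isIntegral
  have h1 : (p.map (algebraMap ℚ k)).Splits := IsAlgClosed.splits _
  have h2 : z ∈ (p.map (algebraMap ℚ ℂ)).roots := by
    rw [Polynomial.mem_roots_map hp0]
    exact minpoly.aeval ℚ z
  have h3 : p.map (algebraMap ℚ ℂ) = (p.map (algebraMap ℚ k)).map (algebraMap k ℂ) := by
    rw [Polynomial.map_map]
    congr 1
    exact Subsingleton.elim _ _
  rw [h3, Polynomial.Splits.roots_map h1, Multiset.mem_map] at h2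
  obtain ⟨a, -, ha⟩ := h2
  exact ⟨a, ha⟩

lemma isAlgebraic_map [Algebra.IsAlgebraic ℚ k] (a : k) : IsAlgebraic ℚ (algebraMap k ℂ a) :=
  (Algebra.IsAlgebraic.isAlgebraic (R := ℚ) a).algebraMap

omit [CharZero k] in
/-- a linear form which does not vanish at a given number -/
lemma exists_form {z : ℂ} (hz : z ≠ 0) : ∃ r : ℂ →ₗ[k] k, r z ≠ 0 := by
  by_contra h
  push Not at h
  exact hz ((Module.forall_dual_apply_eq_zero_iff k z).mp h)

end base

lemma Sim.mul_left {a x y : ℂ} (ha : IsAlgebraic ℚ a) (ha0 : a ≠ 0) (h : Sim x y) :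
    Sim (a * x) y := by
  obtain ⟨b, hb, hb0, h⟩ := h
  exact ⟨a * b, ha.mul hb, mul_ne_zero ha0 hb0, by rw [h, mul_assoc]⟩

lemma Sim.of_mul_left {a x y : ℂ} (ha : IsAlgebraic ℚ a) (ha0 : a ≠ 0) (h : Sim (a * x) y) :
    Sim x y := by
  have := Sim.mul_left ha.inv (inv_ne_zero ha0) h
  rwa [inv_mul_cancel_left₀ ha0] at this

end Pool.Agent.Helper84.GD
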