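import Pool.Agent.Helper84.GD.Defs
import Pool.Agent.Helper11U.Blocks

/-!
# The realization of motives: definitions
-/

set_option autoImplicit false

open TensorProduct CategoryTheory CategoryTheory.Limits AlgebraicGeometry
open Pool.Agent.Y116.UV Pool.Agent.Z125.UN Pool.Agent.Q282.UK Pool.Agent.Q282.UZ
open Pool.Agent.Helper11U

universe v u

namespace Pool.Agent.Helper84.GD

variable {k : Type} [Field k] [Algebra k ℂ]

/-- A realization of the category `C`: for every object `M` the data `obj M` (rational vector space,
vector space over `k`, comparison, Hodge pieces), for every morphism the rational map `b` and the map `d`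
between the vector spaces over `k`. -/
structure Realization (k : Type) [Field k] [Algebra k ℂ] (C : Type u) [Category.{v} C] where
  obj : C → HS k
  b : ∀ {M N : C}, (M ⟶ N) → ((obj M).B →ₗ[ℚ] (obj N).B)
  d : ∀ {M N : C}, (M ⟶ N) → ((obj M).D →ₗ[k] (obj N).D)

variable {C : Type u} [Category.{v} C] [Abelian C]

/-- The realization is an additive functor to direct sums of Hodge structures with a de Rham
structure: the maps respect the comparison isomorphisms and the Hodge decompositions. -/
structure IsRealization (R : Realization k C) : Prop where
  valid : ∀ M : C, IsHS (R.obj M)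
  id : ∀ M : C, R.b (𝟙 M) = LinearMap.id
  comp : ∀ {M N P : C} (f : M ⟶ N) (g : N ⟶ P), R.b (f ≫ g) = R.b g ∘ₗ R.b f
  add : ∀ {M N : C} (f g : M ⟶ N), R.b (f + g) = R.b f + R.b g
  hom : ∀ {M N : C} (f : M ⟶ N), IsHom (R.b f) (R.d f)

/-- The known properties of the category `C` of motives for absolute Hodge cycles over `k = ℚ̄`, of the
graded pieces `G i w X` of weight `w` of the cohomology `H^i_c(X)` and of the realization `R` (Betti
and de Rham realization, comparison, Hodge decomposition).
* `gr`, `pure`, `resolution`: the properties of the graded pieces of `H^i_c` (`IsGrThy`; among them: `C` is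
  semisimple), purity for smooth proper schemes, Hironaka's theorem as a principle of dévissage;
* `real`: the realization is an additive functor;
* `twist`: the realization of `M(-1)` is the Tate twist of the realization of `M`;
* `point`: the realization of the motive of a point. -/
structure IsRealThy (D : GrThy k C) (R : Realization k C) : Prop where
  gr : IsGrThy D
  pure : IsPure D
  resolution : Resolution k
  real : IsRealization R
  twist : ∀ M : C, IsTateTwist (R.obj (D.T M)) (R.obj M)
  point : ∀ i w : ℤ, IsConstant (R.obj (D.G i w (aff k k)))

/-- The cohomology of an open and closed subscheme is a direct summand. -/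
def Clopen (D : GrThy k C) : Prop :=
  ∀ {Z X : Sch k} (i : Z ⟶ X), FT True X → IsClosedImmersion i.left → IsOpenImmersion i.left →
    ∀ n w : ℤ, ∃ (s : D.G n w Z ⟶ D.G n w X) (r : D.G n w X ⟶ D.G n w Z), s ≫ r = 𝟙 _

end Pool.Agent.Helper84.GD
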