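import Pool.Agent.Helper84.GD.Field

/-!
# The Gross-Deligne property is additive
-/

set_option autoImplicit false

open TensorProduct

namespace Pool.Agent.Helper84.GD

variable {k : Type} [Field k] [Algebra k ℂ]

/-- Morphisms of Hodge structures with a de Rham structure. -/
structure Hom (M N : HS k) where
  b : M.B →ₗ[ℚ] N.B
  d : M.D →ₗ[k] N.D
  comm : ∀ ω : M.D, N.img (d ω) = b.baseChange ℂ (M.img ω)
  hodge : ∀ (p q : ℤ) (x : ℂ ⊗[ℚ] M.B), x ∈ M.hodge p q → b.baseChange ℂ x ∈ N.hodge p q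

lemma HS.img_add (M : HS k) (ω ω' : M.D) : M.img (ω + ω') = M.img ω + M.img ω' := by
  rw [HS.img, TensorProduct.tmul_add, map_add]
  rfl

lemma HS.img_smul (M : HS k) (a : k) (ω : M.D) : M.img (a • ω) = algebraMap k ℂ a • M.img ω := by
  rw [HS.img, HS.img, ← map_smul, TensorProduct.tmul_smul, TensorProduct.smul_tmul', smul_tmul',
    Algebra.smul_def, smul_eq_mul]

lemma HS.img_zero (M : HS k) : M.img 0 = 0 := by
  rw [HS.img, TensorProduct.tmul_zero, map_zero]

lemma HS.img_sum (M : HS k) {I : Type} (s : Finset I) (ω : I → M.D) :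
    M.img (∑ i ∈ s, ω i) = ∑ i ∈ s, M.img (ω i) := by
  classical
  induction s using Finset.induction_on with
  | empty => rw [Finset.sum_empty, Finset.sum_empty, HS.img_zero]
  | insert a s ha ih => rw [Finset.sum_insert ha, Finset.sum_insert ha, HS.img_add, ih]

/-- A linear relation between images, after a change of the coefficients by a `k`-linear form. -/
lemma HS.relation (M : HS k) {I : Type} (s : Finset I) (ω : I → M.D) (z : I → ℂ) (r : ℂ →ₗ[k] k)
    (h : ∑ i ∈ s, z i • M.img (ω i) = 0) : ∑ i ∈ s, r (z i) • ω i = 0 := by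
  have h1 : M.comp (∑ i ∈ s, z i ⊗ₜ[k] ω i) = 0 := by
    rw [← h, map_sum]
    refine Finset.sum_congr rfl fun i _ => ?_
    rw [HS.img, ← map_smul, TensorProduct.smul_tmul', smul_eq_mul, mul_one]
  have h2 : ∑ i ∈ s, z i ⊗ₜ[k] ω i = 0 := by
    rw [← map_zero M.comp] at h1
    exact M.comp.injective h1
  have h3 := congrArg (fun x => TensorProduct.lid k M.D (LinearMap.rTensor M.D r x)) h2
  simpa using h3

section main

variable {F : Type} [Field F] [NumberField F]

open Classical in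
/-- the sum of the idempotents of a set of embeddings -/
noncomputable def wt (c : (F →+* ℂ) → ℂ) : ℂ ⊗[ℚ] F := ∑ σ, c σ • idem σ

lemma phi_wt (c : (F →+* ℂ) → ℂ) (σ : F →+* ℂ) : phi (wt c) σ = c σ := by
  classical
  rw [wt, map_sum, Finset.sum_apply, Finset.sum_eq_single σ]
  · rw [map_smul, Pi.smul_apply, phi_idem_self, smul_eq_mul, mul_one]
  · intro τ _ hτ
    rw [map_smul, Pi.smul_apply, phi_idem, if_neg hτ.symm, smul_zero]
  · intro h
    exact absurd (Finset.mem_univ _) h

variable {V : Type} [AddCommGroup V] [Module ℚ V]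

/-- the map `h ↦ g (f h)` -/
def shift (g : F →ₗ[ℚ] V) (f : F) : F →ₗ[ℚ] V := g ∘ₗ LinearMap.mulLeft ℚ f

lemma shift_eq (g : F →ₗ[ℚ] V) (f h : F) : shift g f h = g (f * h) := rfl

lemma baseChange_shift (g : F →ₗ[ℚ] V) (f : F) (x : ℂ ⊗[ℚ] F) :
    (shift g f).baseChange ℂ x = g.baseChange ℂ ((1 : ℂ) ⊗ₜ[ℚ] f * x) := by
  induction x with
  | zero => rw [mul_zero, map_zero, map_zero]
  | add x y hx hy => rw [map_add, hx, hy, mul_add, map_add]
  | tmul z h =>
    rw [LinearMap.baseChange_tmul, Algebra.TensorProduct.tmul_mul_tmul, LinearMap.baseChange_tmul,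
      one_mul, shift_eq]

lemma mul_idem (f : F) (σ : F →+* ℂ) : (1 : ℂ) ⊗ₜ[ℚ] f * idem σ = σ f • idem σ := idem_mem σ f

lemma baseChange_shift_wt (g : F →ₗ[ℚ] V) (f : F) (c : (F →+* ℂ) → ℂ) :
    (shift g f).baseChange ℂ (wt c) = ∑ σ, (c σ * σ f) • g.baseChange ℂ (idem σ) := by
  rw [baseChange_shift, wt, Finset.mul_sum, map_sum]
  refine Finset.sum_congr rfl fun σ _ => ?_
  rw [mul_smul_comm, mul_idem, smul_smul, map_smul]

variable (K : IntermediateField ℚ F)

/-- the inclusion of the subfield -/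
def incl : K →ₗ[ℚ] F := K.val.toLinearMap

/-- the restriction of an embedding to the subfield -/
def res (σ : F →+* ℂ) : K →+* ℂ := σ.comp (algebraMap K F)

lemma res_apply (σ : F →+* ℂ) (x : K) : res K σ x = σ (x : F) := rfl

lemma phi_incl (x : ℂ ⊗[ℚ] K) (σ : F →+* ℂ) :
    phi ((incl K).baseChange ℂ x) σ = phi x (res K σ) := by
  induction x with
  | zero => rw [map_zero, map_zero, map_zero, Pi.zero_apply, Pi.zero_apply]
  | add x y hx hy => rw [map_add, map_add, map_add, Pi.add_apply, Pi.add_apply, hx, hy]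
  | tmul z h => rfl

open Classical in
/-- the idempotents of the subfield -/
lemma incl_idem (τ : K →+* ℂ) :
    (incl K).baseChange ℂ (idem τ) = wt fun σ => if res K σ = τ then 1 else 0 := by
  apply phi_ext
  intro σ
  rw [phi_incl, phi_idem, phi_wt]

/-- every embedding of the subfield has an extension -/
lemma exists_ext (τ : K →+* ℂ) : ∃ σ : F →+* ℂ, res K σ = τ := by
  let _ : Algebra K ℂ := τ.toAlgebra
  let φ : F →ₐ[K] ℂ := IsAlgClosed.lift
  refine ⟨φ.toRingHom, ?_⟩
  ext x
  exact φ.commutes x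

end main

section add

variable [CharZero k] [IsAlgClosed k] [Algebra.IsAlgebraic ℚ k]
variable (d : ℕ) [NeZero d] (h : (ZMod d)ˣ → ℤ)

/-- **The Gross-Deligne property is additive.** If `M` is embedded into a sum of objects `N j` then the
Gross-Deligne property of the `N j` implies the property of `M`. -/
theorem grossDeligne_of_maps {J : Type} {M : HS k} {N : J → HS k} (hNI : ∀ j, IsHS (N j))
    (π : ∀ j, Hom M (N j)) (hinj : ∀ x, (∀ j, (π j).b x = 0) → x = 0) (hN : ∀ j, GrossDeligne d h (N j)) :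
    GrossDeligne d h M := by
  classical
  intro F _ _ ι i ω w c p hadm hp ε hε l γ hγ
  choose z hz hz0 hzi using hadm.spans
  let cc : (F →+* ℂ) → ℂ := fun σ => phi (z σ) σ
  have hzc : ∀ σ, z σ = cc σ • idem σ := fun σ => mem_line.mp (hz σ)
  have hc0 : ∀ σ, cc σ ≠ 0 := by
    intro σ h0
    apply hz0 σ
    rw [hzc, h0, zero_smul]
  let g : ∀ j, F →ₗ[ℚ] (N j).B := fun j => (π j).b ∘ₗ i
  obtain ⟨K, S, j, hK, hj⟩ := exists_subfield g (by
    intro x hx
    have h1 : i x = 0 := hinj _ hx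
    exact hadm.injective (by rw [h1, map_zero]))
  let u : ∀ j, (F →+* ℂ) → ℂ ⊗[ℚ] (N j).B := fun j σ => (g j).baseChange ℂ (idem σ)
  -- the images of the classes
  have himg : ∀ j σ, (N j).img ((π j).d (ω σ)) = cc σ • u j σ := by
    intro j σ
    rw [(π j).comm, hzi, hzc, ← LinearMap.comp_apply, ← LinearMap.baseChange_comp, map_smul]
  have hhodge : ∀ j σ, u j σ ∈ (N j).hodge (p σ) (w - p σ) := by
    intro j σ
    have h1 := (π j).hodge _ _ _ (hadm.hodge σ)
    rw [← (π j).comm, himg] at h1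
    have h2 := ((N j).hodge (p σ) (w - p σ)).smul_mem (cc σ)⁻¹ h1
    rwa [smul_smul, inv_mul_cancel₀ (hc0 σ), one_smul] at h2
  -- values at embeddings with the same restriction
  have hker : ∀ (y : (F →+* ℂ) → ℂ), (∀ t : S, (shift (g t.1.2) t.1.1).baseChange ℂ (wt y) = 0) →
      ∀ σ τ, res K σ = res K τ → y σ = y τ := by
    intro y hy σ τ hst
    have h1 := phi_eq_of_kernel (fun t : S => shift (g t.1.2) t.1.1) (wt y) hy (σ := σ) (τ := τ) (by
      intro f hf
      have h2 : f ∈ K := (hK f).mpr fun t ht => hf ⟨t, ht⟩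
      exact DFunLike.congr_fun hst (⟨f, h2⟩ : K))
    rwa [phi_wt, phi_wt] at h1
  -- the idempotents of the subfield
  have hidem : ∀ (τ : K →+* ℂ) (t : S),
      ∑ σ, ((if res K σ = τ then 1 else 0) * σ t.1.1) • u t.1.2 σ = 0 := by
    intro τ t
    rw [← baseChange_shift_wt, ← incl_idem, ← LinearMap.comp_apply, ← LinearMap.baseChange_comp]
    have h1 : shift (g t.1.2) t.1.1 ∘ₗ incl K = 0 := by
      ext x
      exact (hK x).mp x.2 t.1 t.2
    rw [h1, LinearMap.baseChange_zero, LinearMap.zero_apply]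
  -- the Hodge types
  have hpeq : ∀ σ1 σ2, res K σ1 = res K σ2 → p σ1 = p σ2 := by
    intro σ1 σ2 h12
    let y : (F →+* ℂ) → ℂ := fun σ => if p σ = p σ1 then (if res K σ = res K σ1 then 1 else 0) else 0
    have hy := hker y (by
      intro t
      rw [baseChange_shift_wt]
      let v : ℤ → ℂ ⊗[ℚ] (N t.1.2).B := fun q => ∑ σ, if p σ = q then
        ((if res K σ = res K σ1 then 1 else 0) * σ t.1.1) • u t.1.2 σ else 0
      have hv : ∀ q, v q ∈ (N t.1.2).hodge q (w - q) := by
        intro q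
        refine Submodule.sum_mem _ fun σ _ => ?_
        by_cases hq : p σ = q
        · rw [if_pos hq, ← hq]
          exact Submodule.smul_mem _ _ (hhodge _ σ)
        · rw [if_neg hq]
          exact Submodule.zero_mem _
      have hsum : ∑ q ∈ Finset.univ.image p, v q = 0 := by
        refine Finset.sum_comm.trans ((Finset.sum_congr rfl fun σ _ => ?_).trans
          (hidem (res K σ1) t))
        rw [Finset.sum_ite_eq, if_pos (Finset.mem_image_of_mem p (Finset.mem_univ σ))]
      have hind := ((DirectSum.isInternal_submodule_iff_iSupIndep_and_iSup_eq_top _).mp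
        (hNI t.1.2).2).1
      have hind' : iSupIndep fun q : ℤ => (N t.1.2).hodge q (w - q) :=
        hind.comp (f := fun q : ℤ => (q, w - q)) fun a b hab => congrArg Prod.fst hab
      have h1 := (iSupIndep_iff_finsetSum_eq_zero_imp_eq_zero _).mp hind' (Finset.univ.image p) v
        (fun q _ => hv q) hsum (p σ1) (Finset.mem_image_of_mem p (Finset.mem_univ σ1))
      rw [← h1]
      refine Finset.sum_congr rfl fun σ _ => ?_
      change ((if p σ = p σ1 then (if res K σ = res K σ1 then (1 : ℂ) else 0) else 0) * σ t.1.1) •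
        (g t.1.2).baseChange ℂ (idem σ) = _
      split_ifs <;> simp [u]) σ1 σ2 h12
    change (if p σ1 = p σ1 then (if res K σ1 = res K σ1 then (1 : ℂ) else 0) else 0) =
      if p σ2 = p σ1 then (if res K σ2 = res K σ1 then 1 else 0) else 0 at hy
    rw [if_pos rfl, if_pos rfl] at hy
    by_contra hne
    rw [if_neg (fun h => hne h.symm)] at hy
    exact one_ne_zero hy
  -- the comparison of the constants
  have hceq : ∀ σ1 σ2, res K σ1 = res K σ2 → ∃ a : k, cc σ1 = algebraMap k ℂ a * cc σ2 := by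
    intro σ1 σ2 h12
    obtain ⟨r, hr⟩ := exists_form (k := k) (inv_ne_zero (hc0 σ1))
    let y : (F →+* ℂ) → ℂ := fun σ =>
      (if res K σ = res K σ1 then 1 else 0) * (algebraMap k ℂ (r (cc σ)⁻¹) * cc σ)
    have hy := hker y (by
      intro t
      rw [baseChange_shift_wt]
      choose a ha using fun σ : F →+* ℂ =>
        exists_of_algebraic (k := k) (isAlgebraic_val σ t.1.1)
      have h1 : ∑ σ, (((if res K σ = res K σ1 then 1 else 0) * σ t.1.1) * (cc σ)⁻¹) •
          (N t.1.2).img ((π t.1.2).d (ω σ)) = 0 := by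
        rw [← hidem (res K σ1) t]
        refine Finset.sum_congr rfl fun σ _ => ?_
        rw [himg, smul_smul, mul_assoc, inv_mul_cancel₀ (hc0 σ), mul_one]
      have h2 := (N t.1.2).relation _ _ _ r h1
      have h3 := congrArg (N t.1.2).img h2
      rw [HS.img_sum, HS.img_zero] at h3
      rw [← h3]
      refine Finset.sum_congr rfl fun σ _ => ?_
      rw [HS.img_smul, himg, smul_smul]
      change (((if res K σ = res K σ1 then (1 : ℂ) else 0) *
        (algebraMap k ℂ (r (cc σ)⁻¹) * cc σ)) * σ t.1.1) • u t.1.2 σ = _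
      congr 1
      by_cases hσ : res K σ = res K σ1
      · have hr1 : r (algebraMap k ℂ (a σ) * (cc σ)⁻¹) = a σ * r (cc σ)⁻¹ := by
          rw [← Algebra.smul_def, map_smul, smul_eq_mul]
        rw [if_pos hσ, one_mul, one_mul, ← ha σ, hr1, map_mul]
        ring
      · simp [hσ])
      σ1 σ2 h12
    change (if res K σ1 = res K σ1 then (1 : ℂ) else 0) * (algebraMap k ℂ (r (cc σ1)⁻¹) * cc σ1) =
      (if res K σ2 = res K σ1 then (1 : ℂ) else 0) * (algebraMap k ℂ (r (cc σ2)⁻¹) * cc σ2) at hy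
    rw [if_pos rfl, if_pos h12.symm, one_mul, one_mul] at hy
    refine ⟨(r (cc σ1)⁻¹)⁻¹ * r (cc σ2)⁻¹, ?_⟩
    have hr' : algebraMap k ℂ (r (cc σ1)⁻¹) ≠ 0 :=
      (map_ne_zero_iff _ (algebraMap k ℂ).injective).mpr hr
    rw [map_mul, map_inv₀, mul_assoc, ← hy, inv_mul_cancel_left₀ hr']
  -- the data for the subfield
  choose E hE using exists_ext K
  have hcE : ∀ σ, ∃ a : k, cc (E (res K σ)) = algebraMap k ℂ a * cc σ := fun σ => hceq _ _ (hE _)
  choose a ha using hcE
  let iK : K →ₗ[ℚ] (N j).B := g j ∘ₗ incl K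
  have hiK : Function.Injective iK := by
    rw [← LinearMap.ker_eq_bot, LinearMap.ker_eq_bot']
    intro x hx
    exact Subtype.ext (hj x x.2 hx)
  let ωK : (K →+* ℂ) → (N j).D := fun τ =>
    ∑ σ, (if res K σ = τ then a σ else 0) • (π j).d (ω σ)
  have himgK : ∀ τ, (N j).img (ωK τ) = iK.baseChange ℂ (cc (E τ) • idem τ) := by
    intro τ
    rw [map_smul, LinearMap.baseChange_comp, LinearMap.comp_apply, incl_idem, wt, map_sum,
      Finset.smul_sum, HS.img_sum]
    refine Finset.sum_congr rfl fun σ _ => ?_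
    rw [HS.img_smul, himg, map_smul, smul_smul, smul_smul]
    congr 1
    by_cases hσ : res K σ = τ
    · rw [if_pos hσ, if_pos hσ, mul_one, ← ha σ, hσ]
    · rw [if_neg hσ, if_neg hσ, map_zero, zero_mul, mul_zero]
  have hadmK : IsAdmissible (N j) iK ωK w fun τ => p (E τ) := by
    refine ⟨hiK, fun τ => ⟨cc (E τ) • idem τ, (idem_mem τ).smul _, ?_, himgK τ⟩,
      fun τ => ?_⟩
    · intro h0
      have h1 := congrFun (congrArg phi h0) τ
      rw [map_smul, Pi.smul_apply, phi_idem_self, smul_eq_mul, mul_one, map_zero,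
        Pi.zero_apply] at h1
      exact hc0 _ h1
    · rw [HS.img_sum]
      refine Submodule.sum_mem _ fun σ _ => ?_
      rw [HS.img_smul, himg]
      by_cases hσ : res K σ = τ
      · have h1 : p (E τ) = p σ := hpeq _ _ ((hE τ).trans hσ.symm)
        change _ ∈ (N j).hodge (p (E τ)) (w - p (E τ))
        rw [h1]
        exact Submodule.smul_mem _ _ (Submodule.smul_mem _ _ (hhodge j σ))
      · rw [if_neg hσ, map_zero, zero_smul]
        exact Submodule.zero_mem _
  have hres : ∀ l' : (ZMod d)ˣ, (cyc d l').comp (ι.comp (algebraMap K F)) =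
      res K ((cyc d l').comp ι) := fun _ => rfl
  have hfin := hN j K (ι.comp (algebraMap K F)) iK ωK w c (fun τ => p (E τ)) hadmK (by
    intro l'
    rw [hres, hpeq _ _ (hE _)]
    exact hp l') ε hε l
  -- a linear form
  have h1 : iK 1 ≠ 0 := by
    intro h0
    exact one_ne_zero (hiK (by rw [h0, map_zero]))
  obtain ⟨γ', hγ'⟩ : ∃ γ' : (N j).B →ₗ[ℚ] ℚ, γ' (iK 1) ≠ 0 := by
    by_contra hc
    push Not at hc
    exact h1 ((Module.forall_dual_apply_eq_zero_iff ℚ (iK 1)).mp hc)
  have hγ'0 : γ' ∘ₗ iK ≠ 0 := by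
    intro h0
    exact hγ' (DFunLike.congr_fun h0 (1 : K))
  have h2 := hfin γ' hγ'0
  rw [hres, HS.period, himgK, ext_comp, map_smul, smul_eq_mul, mul_comm] at h2
  obtain ⟨h3, h4⟩ := ext_idem (γ' ∘ₗ iK) hγ'0 (res K ((cyc d l).comp ι))
  have h5 := Sim.of_mul_left h3 h4 h2
  obtain ⟨b, hb⟩ := hceq _ _ (hE (res K ((cyc d l).comp ι))).symm
  have hb0 : algebraMap k ℂ b ≠ 0 := by
    intro h0
    rw [h0, zero_mul] at hb
    exact hc0 _ hb
  have h6 : Sim (cc ((cyc d l).comp ι)) (gam d ε l) := by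
    rw [hb]
    exact Sim.mul_left (isAlgebraic_map b) hb0 h5
  rw [HS.period, hzi, hzc, ext_comp, map_smul, smul_eq_mul, mul_comm]
  obtain ⟨h7, h8⟩ := ext_idem (γ ∘ₗ i) hγ ((cyc d l).comp ι)
  exact Sim.mul_left h7 h8 h6

end add

end Pool.Agent.Helper84.GD
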