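import Pool.Agent.Helper84.GD.Twist
import Pool.Agent.Helper84.GD.Real

/-!
# The Gross-Deligne property for motives
-/

set_option autoImplicit false

open TensorProduct CategoryTheory CategoryTheory.Limits AlgebraicGeometry
open Pool.Agent.Y116.UV Pool.Agent.Z125.UN Pool.Agent.Q282.UK Pool.Agent.Q282.UZ
open Pool.Agent.Helper11U

universe v u

namespace Pool.Agent.Helper84.GD

variable {k : Type} [Field k] [Algebra k ℂ]

section constant

lemma period_ne_zero {F : Type} [Field F] [NumberField F] {M : HS k} {i : F →ₗ[ℚ] M.B}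
    {ω : (F →+* ℂ) → M.D} {w : ℤ} {p : (F →+* ℂ) → ℤ} (hadm : IsAdmissible M i ω w p)
    (γ : M.B →ₗ[ℚ] ℚ) (hγ : γ ∘ₗ i ≠ 0) (σ : F →+* ℂ) : M.period γ (ω σ) ≠ 0 := by
  obtain ⟨z, hz, hz0, h1⟩ := hadm.spans σ
  have h2 : z = phi z σ • idem σ := mem_line.mp hz
  have h3 : phi z σ ≠ 0 := by
    intro h0
    apply hz0
    rw [h2, h0, zero_smul]
  rw [HS.period, h1, h2, ext_comp, map_smul, smul_eq_mul]
  exact mul_ne_zero h3 (ext_idem _ hγ σ).2

variable [CharZero k] [IsAlgClosed k] [Algebra.IsAlgebraic ℚ k]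

omit [IsAlgClosed k] in
lemma period_constant {M : HS k} (hMI : IsHS M) (hM : IsConstant M) (γ : M.B →ₗ[ℚ] ℚ) (ω : M.D) :
    IsAlgebraic ℚ (M.period γ ω) := by
  classical
  have := hMI.1
  let b := Module.finBasis ℚ M.B
  choose η hη using hM.2
  obtain ⟨r, hr⟩ := exists_form (k := k) (z := 1) one_ne_zero
  have h1 : M.img ω = ∑ l, (b.baseChange ℂ).repr (M.img ω) l • M.img (η (b l)) := by
    conv_lhs => rw [← (b.baseChange ℂ).sum_repr (M.img ω)]
    refine Finset.sum_congr rfl fun l _ => ?_
    rw [hη, Module.Basis.baseChange_apply]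
  let z : Option (Fin (Module.finrank ℚ M.B)) → ℂ := fun o =>
    o.elim 1 fun l => -(b.baseChange ℂ).repr (M.img ω) l
  let e : Option (Fin (Module.finrank ℚ M.B)) → M.D := fun o => o.elim ω fun l => η (b l)
  have h2 : ∑ o, z o • M.img (e o) = 0 := by
    rw [Fintype.sum_option]
    change (1 : ℂ) • M.img ω + ∑ l, (-(b.baseChange ℂ).repr (M.img ω) l) • M.img (η (b l)) = 0
    simp only [neg_smul, Finset.sum_neg_distrib]
    rw [one_smul, ← h1, add_neg_cancel]
  have h3 := M.relation Finset.univ e z r h2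
  rw [Fintype.sum_option] at h3
  have h4 : r 1 • ω = -∑ l, r (z (some l)) • η (b l) := eq_neg_of_add_eq_zero_left h3
  have h5 : algebraMap k ℂ (r 1) * M.period γ ω =
      -∑ l, algebraMap k ℂ (r (z (some l))) * (γ (b l) : ℂ) := by
    have h6 := congrArg M.img h4
    rw [HS.img_smul] at h6
    have h7 : M.img (-∑ l, r (z (some l)) • η (b l)) =
        -∑ l, algebraMap k ℂ (r (z (some l))) • ((1 : ℂ) ⊗ₜ[ℚ] b l) := by
      rw [← neg_one_smul k, HS.img_smul, map_neg, map_one, neg_one_smul, HS.img_sum]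
      congr 1
      refine Finset.sum_congr rfl fun l _ => ?_
      rw [HS.img_smul, hη]
    rw [h7] at h6
    have h8 := congrArg (ext γ) h6
    rw [map_smul, smul_eq_mul, map_neg, map_sum] at h8
    rw [HS.period, h8]
    congr 1
    refine Finset.sum_congr rfl fun l _ => ?_
    rw [map_smul, ext_tmul, one_mul, smul_eq_mul]
  have h9 : IsAlgebraic ℚ (algebraMap k ℂ (r 1) * M.period γ ω) := by
    rw [h5]
    refine IsAlgebraic.neg ?_
    refine Finset.sum_induction _ (IsAlgebraic ℚ) (fun _ _ => IsAlgebraic.add) isAlgebraic_zero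
      fun l _ => ?_
    exact (isAlgebraic_map _).mul (isAlgebraic_algebraMap (R := ℚ) (γ (b l)))
  have h10 : algebraMap k ℂ (r 1) ≠ 0 := (map_ne_zero_iff _ (algebraMap k ℂ).injective).mpr hr
  have h11 := (isAlgebraic_map (r 1)).inv.mul h9
  rwa [inv_mul_cancel_left₀ h10] at h11

omit [IsAlgClosed k] in
/-- Constant objects, by the theorem of Koblitz and Ogus. -/
theorem grossDeligne_constant (d : ℕ) [NeZero d] (h : (ZMod d)ˣ → ℤ) (hKO : KoblitzOgus d)
    {M : HS k} (hMI : IsHS M) (hM : IsConstant M) : GrossDeligne d h M := by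
  intro F _ _ j i ω w c p hadm hp ε hε l γ hγ
  have h1 : ∀ σ, p σ = 0 := by
    intro σ
    by_contra hne
    have hind := ((DirectSum.isInternal_submodule_iff_iSupIndep_and_iSup_eq_top _).mp
      hMI.2).1
    have h2 := hind.pairwiseDisjoint (i := (p σ, w - p σ)) (j := ((0 : ℤ), (0 : ℤ)))
      (fun h0 => hne (congrArg Prod.fst h0))
    have h3 : M.img (ω σ) ∈ M.hodge 0 0 := by
      rw [hM.1]
      exact Submodule.mem_top
    have h4 : M.img (ω σ) = 0 := Submodule.disjoint_def.mp h2 _ (hadm.hodge σ) h3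
    apply period_ne_zero hadm γ hγ σ
    rw [HS.period, h4, map_zero]
  have h2 : IsAlgebraic ℚ (gam d ε l : ℂ) := by
    refine hKO ε (fun l' => ?_) l
    rw [← hε l', ← hp l', h1, Int.cast_zero, mul_zero]
  have h3 : (gam d ε l : ℂ) ≠ 0 := Complex.ofReal_ne_zero.mpr (gam_pos d _ l).ne'
  exact ⟨M.period γ (ω ((cyc d l).comp j)) * (gam d ε l : ℂ)⁻¹,
    (period_constant hMI hM γ _).mul h2.inv, mul_ne_zero (period_ne_zero hadm γ hγ _)
      (inv_ne_zero h3), by rw [inv_mul_cancel_right₀ h3]⟩

end constant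

variable {C : Type u} [Category.{v} C] [Abelian C]

variable {C : Type u} [Category.{v} C] [Abelian C]

variable {D : GrThy k C} {R : Realization k C}

/-- the morphism given by a morphism of `C` -/
def homOf (hR : IsRealization R) {M N : C} (f : M ⟶ N) : Hom (R.obj M) (R.obj N) :=
  { b := R.b f
    d := R.d f
    comm := (hR.hom f).1
    hodge := (hR.hom f).2 }

variable [CharZero k] [IsAlgClosed k] [Algebra.IsAlgebraic ℚ k]

/-- The Gross-Deligne property is inherited by direct summands and direct sums and invariant under Tate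
twists. -/
theorem isAdd_grossDeligne (hD : IsRealThy D R) (d : ℕ) [NeZero d] (hd : 2 ≤ d)
    (h : (ZMod d)ˣ → ℤ) : IsAdd D.T fun M => GrossDeligne d h (R.obj M) where
  retract s r hsr hB := by
    refine grossDeligne_retract d h (homOf hD.real s) (R.b r) (fun x => ?_) hB
    change R.b r (R.b s x) = x
    rw [← LinearMap.comp_apply, ← hD.real.comp, hsr, hD.real.id, LinearMap.id_apply]
  sum A B hA hB := by
    refine grossDeligne_of_maps d h (J := Bool) (N := fun j => cond j (R.obj A) (R.obj B))
      (fun j => match j with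
        | true => hD.real.valid A
        | false => hD.real.valid B)
      (fun j => match j with
        | true => homOf hD.real biprod.fst
        | false => homOf hD.real biprod.snd) ?_ ?_
    · intro x hx
      have h1 : R.b (biprod.fst : A ⊞ B ⟶ A) x = 0 := hx true
      have h2 : R.b (biprod.snd : A ⊞ B ⟶ B) x = 0 := hx false
      have h3 : R.b (𝟙 (A ⊞ B)) x = x := by
        rw [hD.real.id]
        rfl
      rw [← h3, ← biprod.total, hD.real.add, hD.real.comp, hD.real.comp, LinearMap.add_apply]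
      change R.b biprod.inl (R.b biprod.fst x) + R.b biprod.inr (R.b biprod.snd x) = 0
      rw [h1, h2, map_zero, map_zero, add_zero]
    · rintro (_ | _)
      · exact hB
      · exact hA
  twist M := grossDeligne_tateTwist d h hd (hD.twist M)

omit [IsAlgClosed k] in
/-- the motive of a point -/
theorem grossDeligne_point (hD : IsRealThy D R) (d : ℕ) [NeZero d] (hKO : KoblitzOgus d)
    (h : (ZMod d)ˣ → ℤ) (i w : ℤ) : GrossDeligne d h (R.obj (D.G i w (aff k k))) :=
  grossDeligne_constant d h hKO (hD.real.valid _) (hD.point i w)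

end Pool.Agent.Helper84.GD
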