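import Pool.Agent.Helper84.GD.Sum

/-!
# The Gross-Deligne property: retracts, Tate twists, constant objects
-/

set_option autoImplicit false

open TensorProduct

namespace Pool.Agent.Helper84.GD

section gamma

variable (d : ℕ) [NeZero d]

lemma gamma_pos (a : ZMod d) : 0 < Real.Gamma (1 - (a.val : ℝ) / d) := by
  apply Real.Gamma_pos_of_pos
  have h1 : (0 : ℝ) < d := Nat.cast_pos.mpr (NeZero.pos d)
  have h2 : (a.val : ℝ) < d := Nat.cast_lt.mpr (ZMod.val_lt a)
  rw [sub_pos, div_lt_one h1]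
  exact h2

lemma gam_pos (ε : ZMod d → ℚ) (l : (ZMod d)ˣ) : 0 < gam d ε l :=
  Finset.prod_pos fun a _ => Real.rpow_pos_of_pos (gamma_pos d a) _

lemma gam_add (ε ε' : ZMod d → ℚ) (l : (ZMod d)ˣ) :
    gam d (ε + ε') l = gam d ε l * gam d ε' l := by
  rw [gam, gam, gam, ← Finset.prod_mul_distrib]
  refine Finset.prod_congr rfl fun a _ => ?_
  rw [Pi.add_apply, Rat.cast_add, Real.rpow_add (gamma_pos d a)]

lemma gam_single (b : ZMod d) (l : (ZMod d)ˣ) :
    gam d (Pi.single b 1) l = Real.Gamma (1 - ((b * l).val : ℝ) / d) := by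
  classical
  rw [gam, Finset.prod_eq_single (b * l)]
  · rw [mul_assoc, Units.mul_inv, mul_one, Pi.single_eq_same, Rat.cast_one, Real.rpow_one]
  · intro a _ ha
    have h1 : a * ((l⁻¹ : (ZMod d)ˣ) : ZMod d) ≠ b := by
      intro h
      apply ha
      rw [← h, mul_assoc, Units.inv_mul, mul_one]
    rw [Pi.single_eq_of_ne h1, Rat.cast_zero, Real.rpow_zero]
  · intro h
    exact absurd (Finset.mem_univ _) h

/-- the function `δ_1 + δ_{-1}` -/
def two : ZMod d → ℚ := Pi.single 1 1 + Pi.single (-1) 1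

omit [NeZero d] in
lemma unit_ne_zero (hd : 2 ≤ d) (l : (ZMod d)ˣ) : (l : ZMod d) ≠ 0 := by
  have : Fact (1 < d) := ⟨hd⟩
  exact l.ne_zero

lemma val_neg (hd : 2 ≤ d) (l : (ZMod d)ˣ) :
    ((-(l : ZMod d)).val : ℝ) = d - (l : ZMod d).val := by
  rw [ZMod.neg_val, if_neg (unit_ne_zero d hd l), Nat.cast_sub (ZMod.val_lt _).le]

lemma sum_single (b : ZMod d) (l : (ZMod d)ˣ) :
    ∑ a : ZMod d, (Pi.single b 1 : ZMod d → ℚ) a * (((l : ZMod d) * a).val : ℚ) =
      (((l : ZMod d) * b).val : ℚ) := by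
  classical
  rw [Finset.sum_eq_single b]
  · rw [Pi.single_eq_same, one_mul]
  · intro a _ ha
    rw [Pi.single_eq_of_ne ha, zero_mul]
  · intro h
    exact absurd (Finset.mem_univ _) h

lemma sum_two (hd : 2 ≤ d) (l : (ZMod d)ˣ) :
    ∑ a : ZMod d, two d a * (((l : ZMod d) * a).val : ℚ) = d := by
  have h1 : ∀ a, two d a * (((l : ZMod d) * a).val : ℚ) =
      (Pi.single 1 1 : ZMod d → ℚ) a * (((l : ZMod d) * a).val : ℚ) +
        (Pi.single (-1) 1 : ZMod d → ℚ) a * (((l : ZMod d) * a).val : ℚ) := by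
    intro a
    rw [two, Pi.add_apply, add_mul]
  rw [Finset.sum_congr rfl fun a _ => h1 a, Finset.sum_add_distrib, sum_single, sum_single,
    mul_one, mul_neg, mul_one]
  have h2 := val_neg d hd l
  have h3 : ((-(l : ZMod d)).val : ℚ) = d - (l : ZMod d).val := by exact_mod_cast h2
  rw [h3]
  ring

lemma isAlgebraic_exp (m n : ℕ) (hn : n ≠ 0) :
    IsAlgebraic ℚ (Complex.exp (Real.pi * Complex.I * (m / n))) := by
  have h1 : IsIntegral ℚ (Complex.exp (Real.pi * Complex.I * (m / n))) := by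
    refine IsIntegral.of_pow (n := 2 * n) (by omega) ?_
    have h2 : Complex.exp (Real.pi * Complex.I * (m / n)) ^ (2 * n) = 1 := by
      rw [← Complex.exp_nat_mul]
      have h3 : ((2 * n : ℕ) : ℂ) * (Real.pi * Complex.I * (m / n)) =
          (m : ℤ) * (2 * Real.pi * Complex.I) := by
        have : (n : ℂ) ≠ 0 := Nat.cast_ne_zero.mpr hn
        push_cast
        field_simp
      rw [h3, Complex.exp_int_mul_two_pi_mul_I]
    rw [h2]
    exact isIntegral_one
  exact h1.isAlgebraic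

/-- Euler's reflection formula. -/
lemma sim_two (hd : 2 ≤ d) (l : (ZMod d)ˣ) :
    ∃ a : ℂ, IsAlgebraic ℚ a ∧ a ≠ 0 ∧ 2 * (Real.pi : ℂ) * Complex.I = a * (gam d (two d) l : ℂ) := by
  set m : ℕ := (l : ZMod d).val with hm
  have hd0 : (0 : ℝ) < d := Nat.cast_pos.mpr (NeZero.pos d)
  have hdR : (d : ℝ) ≠ 0 := hd0.ne'
  have hm1 : m < d := ZMod.val_lt _
  have hm0 : 0 < m := Nat.pos_of_ne_zero fun h => unit_ne_zero d hd l ((ZMod.val_eq_zero _).mp h)
  have h1 : gam d (two d) l = Real.pi / Real.sin (Real.pi * (m / d)) := by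
    rw [two, gam_add, gam_single, gam_single, one_mul, neg_mul, one_mul, val_neg d hd,
      ← Real.Gamma_mul_Gamma_one_sub (m / d)]
    have h2 : 1 - ((d : ℝ) - m) / d = m / d := by
      field_simp
      ring
    rw [h2, mul_comm]
  have hs : Real.sin (Real.pi * (m / d)) ≠ 0 := by
    have h3 : 0 < Real.pi * ((m : ℝ) / d) := by positivity
    have h4 : Real.pi * ((m : ℝ) / d) < Real.pi := by
      have : (m : ℝ) / d < 1 := by
        rw [div_lt_one hd0]
        exact_mod_cast hm1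
      nlinarith [Real.pi_pos]
    exact (Real.sin_pos_of_pos_of_lt_pi h3 h4).ne'
  have hsC : (Real.sin (Real.pi * (m / d)) : ℂ) ≠ 0 := Complex.ofReal_ne_zero.mpr hs
  refine ⟨2 * Complex.I * (Real.sin (Real.pi * (m / d)) : ℂ), ?_, ?_, ?_⟩
  · have h5 : 2 * Complex.I * (Real.sin (Real.pi * (m / d)) : ℂ) =
        Complex.exp (Real.pi * Complex.I * (m / d)) -
          (Complex.exp (Real.pi * Complex.I * (m / d)))⁻¹ := by
      rw [← Complex.exp_neg, Complex.ofReal_sin, Complex.sin]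
      push_cast
      have e1 : -(↑Real.pi * (↑m / ↑d)) * Complex.I = -(↑Real.pi * Complex.I * (↑m / ↑d)) := by ring
      have e2 : ↑Real.pi * (↑m / ↑d) * Complex.I = ↑Real.pi * Complex.I * (↑m / ↑d) := by ring
      rw [e1, e2]
      linear_combination (Complex.exp (-(↑Real.pi * Complex.I * (↑m / ↑d))) -
        Complex.exp (↑Real.pi * Complex.I * (↑m / ↑d))) * Complex.I_sq
    rw [h5]
    exact (isAlgebraic_exp m d (NeZero.ne d)).sub (isAlgebraic_exp m d (NeZero.ne d)).inv
  · exact mul_ne_zero (mul_ne_zero two_ne_zero Complex.I_ne_zero) hsC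
  · rw [h1, Complex.ofReal_div]
    generalize (Real.sin (Real.pi * (m / d)) : ℂ) = s at hsC ⊢
    field_simp

end gamma

variable {k : Type} [Field k] [Algebra k ℂ]

section retract

variable (d : ℕ) [NeZero d] (h : (ZMod d)ˣ → ℤ)

/-- Retracts. -/
theorem grossDeligne_retract {M N : HS k} (s : Hom M N) (r : N.B →ₗ[ℚ] M.B)
    (hrs : ∀ x, r (s.b x) = x) (hN : GrossDeligne d h N) : GrossDeligne d h M := by
  intro F _ _ j i ω w c p hadm hp ε hε l γ hγ
  have hadm' : IsAdmissible N (s.b ∘ₗ i) (fun σ => s.d (ω σ)) w p := by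
    refine ⟨?_, fun σ => ?_, fun σ => ?_⟩
    · intro x y hxy
      apply hadm.injective
      have h1 : s.b (i x) = s.b (i y) := hxy
      rw [← hrs (i x), h1, hrs]
    · obtain ⟨z, hz, hz0, h1⟩ := hadm.spans σ
      refine ⟨z, hz, hz0, ?_⟩
      rw [s.comm, h1, LinearMap.baseChange_comp, LinearMap.comp_apply]
    · rw [s.comm]
      exact s.hodge _ _ _ (hadm.hodge σ)
  have h2 := hN F j (s.b ∘ₗ i) (fun σ => s.d (ω σ)) w c p hadm' hp ε hε l (γ ∘ₗ r) (by
    intro h0
    apply hγ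
    ext x
    have h1 := DFunLike.congr_fun h0 x
    change γ (r (s.b (i x))) = 0 at h1
    rw [hrs] at h1
    exact h1)
  have h3 : N.period (γ ∘ₗ r) (s.d (ω ((cyc d l).comp j))) =
      M.period γ (ω ((cyc d l).comp j)) := by
    rw [HS.period, HS.period, ← ext_comp, s.comm, ← LinearMap.comp_apply (r.baseChange ℂ),
      ← LinearMap.baseChange_comp]
    have h4 : r ∘ₗ s.b = LinearMap.id := LinearMap.ext hrs
    rw [h4, LinearMap.baseChange_id, LinearMap.id_apply]
  rwa [h3] at h2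

end retract

section twist

/-- The Tate twist `M(-1)`: the comparison isomorphism is multiplied by `2 π i`, Hodge types are shifted
by `(1, 1)`. -/
noncomputable def HS.twist (M : HS k) : HS k where
  B := M.B
  D := M.D
  comp := M.comp.trans (LinearEquiv.smulOfNeZero ℂ _ (2 * (Real.pi : ℂ) * Complex.I)
    Complex.two_pi_I_ne_zero)
  hodge p q := M.hodge (p - 1) (q - 1)

lemma img_twist (M : HS k) (ω : M.D) :
    M.twist.img ω = (2 * (Real.pi : ℂ) * Complex.I) • M.img ω := rfl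

lemma period_twist (M : HS k) (γ : M.B →ₗ[ℚ] ℚ) (ω : M.D) :
    M.twist.period γ ω = (2 * (Real.pi : ℂ) * Complex.I) * M.period γ ω := by
  change ext γ ((2 * (Real.pi : ℂ) * Complex.I) • M.img ω) = _
  rw [map_smul, smul_eq_mul]
  rfl

variable {F : Type} [Field F] [NumberField F]

lemma admissible_of_twist {M : HS k} {i : F →ₗ[ℚ] M.B} {ω : (F →+* ℂ) → M.D} {w : ℤ}
    {p : (F →+* ℂ) → ℤ} (hadm : IsAdmissible M.twist i ω w p) :
    IsAdmissible M i ω (w - 2) fun σ => p σ - 1 := by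
  refine ⟨hadm.injective, fun σ => ?_, fun σ => ?_⟩
  · obtain ⟨z, hz, hz0, h1⟩ := hadm.spans σ
    refine ⟨(2 * (Real.pi : ℂ) * Complex.I)⁻¹ • z, hz.smul _,
      smul_ne_zero (inv_ne_zero Complex.two_pi_I_ne_zero) hz0, ?_⟩
    have h2 : (2 * (Real.pi : ℂ) * Complex.I) • M.img (ω σ) = i.baseChange ℂ z := h1
    rw [map_smul, ← h2, smul_smul, inv_mul_cancel₀ Complex.two_pi_I_ne_zero, one_smul]
  · have h1 : (2 * (Real.pi : ℂ) * Complex.I) • M.img (ω σ) ∈
        M.hodge (p σ - 1) (w - p σ - 1) := hadm.hodge σ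
    have h2 := Submodule.smul_mem _ (2 * (Real.pi : ℂ) * Complex.I)⁻¹ h1
    rw [smul_smul, inv_mul_cancel₀ Complex.two_pi_I_ne_zero, one_smul] at h2
    have h3 : w - p σ - 1 = w - 2 - (p σ - 1) := by ring
    rwa [h3] at h2

lemma admissible_twist {M : HS k} {i : F →ₗ[ℚ] M.B} {ω : (F →+* ℂ) → M.D} {w : ℤ}
    {p : (F →+* ℂ) → ℤ} (hadm : IsAdmissible M i ω w p) :
    IsAdmissible M.twist i ω (w + 2) fun σ => p σ + 1 := by
  refine ⟨hadm.injective, fun σ => ?_, fun σ => ?_⟩
  · obtain ⟨z, hz, hz0, h1⟩ := hadm.spans σ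
    refine ⟨(2 * (Real.pi : ℂ) * Complex.I) • z, hz.smul _,
      smul_ne_zero Complex.two_pi_I_ne_zero hz0, ?_⟩
    change (2 * (Real.pi : ℂ) * Complex.I) • M.img (ω σ) = i.baseChange ℂ _
    rw [map_smul, h1]
  · change (2 * (Real.pi : ℂ) * Complex.I) • M.img (ω σ) ∈
        M.hodge (p σ + 1 - 1) (w + 2 - (p σ + 1) - 1)
    have h3 : w + 2 - (p σ + 1) - 1 = w - p σ := by ring
    rw [h3, add_sub_cancel_right]
    exact Submodule.smul_mem _ _ (hadm.hodge σ)

variable (d : ℕ) [NeZero d] (h : (ZMod d)ˣ → ℤ)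

/-- Tate twists. -/
theorem grossDeligne_twist (hd : 2 ≤ d) (M : HS k) :
    GrossDeligne d h M.twist ↔ GrossDeligne d h M := by
  constructor
  · intro hM F _ _ j i ω w c p hadm hp ε hε l γ hγ
    have h1 := hM F j i ω (w + 2) (c + 1) (fun σ => p σ + 1) (admissible_twist hadm)
      (fun l' => by rw [hp l']; ring) (ε + two d) (by
        intro l'
        have h2 : ∀ a, (ε + two d) a * (((l' : ZMod d) * a).val : ℚ) =
            ε a * (((l' : ZMod d) * a).val : ℚ) + two d a * (((l' : ZMod d) * a).val : ℚ) :=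
          fun a => by rw [Pi.add_apply, add_mul]
        rw [Finset.sum_congr rfl fun a _ => h2 a, Finset.sum_add_distrib, ← hε l', sum_two d hd]
        push_cast
        ring) l γ hγ
    obtain ⟨b, hb, hb0, h1⟩ := h1
    obtain ⟨a, ha, ha0, h2⟩ := sim_two d hd l
    have h1' : (2 * (Real.pi : ℂ) * Complex.I) * M.period γ (ω ((cyc d l).comp j)) =
        b * (gam d (ε + two d) l : ℂ) := by
      rw [← period_twist]
      exact h1
    have hg : (gam d (two d) l : ℂ) ≠ 0 := Complex.ofReal_ne_zero.mpr (gam_pos d _ l).ne'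
    refine ⟨b * a⁻¹, hb.mul ha.inv, mul_ne_zero hb0 (inv_ne_zero ha0), ?_⟩
    rw [gam_add, Complex.ofReal_mul, h2] at h1'
    have h4 : (a * (gam d (two d) l : ℂ)) * (M.period γ (ω ((cyc d l).comp j)) -
        b * a⁻¹ * (gam d ε l : ℂ)) = 0 := by
      have : a * a⁻¹ = 1 := mul_inv_cancel₀ ha0
      linear_combination h1' - b * (gam d ε l : ℂ) * (gam d (two d) l : ℂ) * this
    exact sub_eq_zero.mp ((mul_eq_zero.mp h4).resolve_left (mul_ne_zero ha0 hg))
  · intro hM F _ _ j i ω w c p hadm hp ε hε l γ hγ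
    have h1 := hM F j i ω (w - 2) (c - 1) (fun σ => p σ - 1) (admissible_of_twist hadm)
      (fun l' => by rw [hp l']; ring) (ε - two d) (by
        intro l'
        have h2 : ∀ a, (ε - two d) a * (((l' : ZMod d) * a).val : ℚ) =
            ε a * (((l' : ZMod d) * a).val : ℚ) - two d a * (((l' : ZMod d) * a).val : ℚ) :=
          fun a => by rw [Pi.sub_apply, sub_mul]
        rw [Finset.sum_congr rfl fun a _ => h2 a, Finset.sum_sub_distrib, ← hε l', sum_two d hd]
        push_cast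
        ring) l γ hγ
    obtain ⟨b, hb, hb0, h1⟩ := h1
    obtain ⟨a, ha, ha0, h2⟩ := sim_two d hd l
    refine ⟨b * a, hb.mul ha, mul_ne_zero hb0 ha0, ?_⟩
    have h3 : gam d ε l = gam d (ε - two d) l * gam d (two d) l := by
      rw [← gam_add, sub_add_cancel]
    have h4 : M.twist.period γ (ω ((cyc d l).comp j)) =
        (2 * (Real.pi : ℂ) * Complex.I) * M.period γ (ω ((cyc d l).comp j)) :=
      period_twist M γ _
    rw [h4, h1, h2, h3, Complex.ofReal_mul]
    ring

/-- Tate twists. -/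
theorem grossDeligne_tateTwist (hd : 2 ≤ d) {N M : HS k} (hNM : IsTateTwist N M) :
    GrossDeligne d h N ↔ GrossDeligne d h M := by
  obtain ⟨e, e', h1, h2⟩ := hNM
  rw [← grossDeligne_twist d h hd M]
  have h3 : e.symm.toLinearMap ∘ₗ e.toLinearMap = LinearMap.id := by
    ext x
    exact e.symm_apply_apply x
  have h4 : e.toLinearMap ∘ₗ e.symm.toLinearMap = LinearMap.id := by
    ext x
    exact e.apply_symm_apply x
  have h5 : ∀ x, e.symm.toLinearMap.baseChange ℂ (e.toLinearMap.baseChange ℂ x) = x := by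
    intro x
    rw [← LinearMap.comp_apply, ← LinearMap.baseChange_comp, h3, LinearMap.baseChange_id,
      LinearMap.id_apply]
  have h6 : ∀ x, e.toLinearMap.baseChange ℂ (e.symm.toLinearMap.baseChange ℂ x) = x := by
    intro x
    rw [← LinearMap.comp_apply, ← LinearMap.baseChange_comp, h4, LinearMap.baseChange_id,
      LinearMap.id_apply]
  have h7 : ∀ ω : M.D, N.img (e'.symm ω) = e.symm.toLinearMap.baseChange ℂ
      ((2 * (Real.pi : ℂ) * Complex.I) • M.img ω) := by
    intro ω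
    have h8 := h1 (e'.symm ω)
    rw [e'.apply_symm_apply] at h8
    rw [← h8, h5]
  have h9 : ∀ (p q : ℤ) (x : ℂ ⊗[ℚ] M.B), x ∈ M.hodge (p - 1) (q - 1) →
      e.symm.toLinearMap.baseChange ℂ x ∈ N.hodge p q := by
    intro p q x hx
    refine (h2 p q _).mpr ?_
    rw [h6]
    exact hx
  let f : Hom N M.twist :=
    { b := e.toLinearMap
      d := e'.toLinearMap
      comm := fun ω => (h1 ω).symm
      hodge := fun p q x hx => (h2 p q x).mp hx }
  let g : Hom M.twist N :=
    { b := e.symm.toLinearMap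
      d := e'.symm.toLinearMap
      comm := h7
      hodge := h9 }
  exact ⟨grossDeligne_retract d h g e.toLinearMap fun x => e.apply_symm_apply x,
    grossDeligne_retract d h f e.symm.toLinearMap fun x => e.symm_apply_apply x⟩

end twist

end Pool.Agent.Helper84.GD
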