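import Pool.Agent.Helper84.GD.Thy
import Pool.Agent.Helper5.WS.Emb01
import Pool.Agent.Q282.UM.Rat

/-!
# Universality of the hypersurfaces of sets of triples over algebraic extensions of `ℚ`
-/

set_option autoImplicit false

open TensorProduct CategoryTheory CategoryTheory.Limits AlgebraicGeometry MvPolynomial
open Pool.Agent.Y116.UV Pool.Agent.Z125.UN Pool.Agent.Q282.UK Pool.Agent.Q282.UZ
open Pool.Agent.Helper11U

universe v u

namespace Pool.Agent.Helper84.GD

variable {k : Type} [Field k]

/-- `P` passes to open and closed subschemes. -/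
def ClopenClosed (P : Sch k → Prop) : Prop :=
  ∀ {Z X : Sch k} (i : Z ⟶ X), FT True X → IsClosedImmersion i.left → IsOpenImmersion i.left →
    P X → P Z

/-- **Universality.** -/
theorem trip_universal [CharZero k] [Algebra.IsAlgebraic ℚ k] {P : Sch k → Prop}
    (hP : Uni True P) (hc : ClopenClosed P)
    (hE : ∀ (a b c : ℕ) (E : Finset (Fin a × Fin b × Fin c)), P (tripS k E)) (X : Sch k)
    (hX : FT True X) : P X := by
  classical
  refine of_affine hP (fun A _ _ _ => ?_) X hX
  obtain ⟨N, G, hG, ψ, hψ, e, he, hker⟩ :=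
    Pool.Agent.Helper5.WS.exists_clopen (F := ℚ) (k := k) Pool.Agent.Q282.UM.presents_rat A
  let A' := MvPolynomial (Fin N) k ⧸ Ideal.span (G : Set (MvPolynomial (Fin N) k))
  let n : ℕ := 1 + ∑ g ∈ G, ∑ m ∈ g.support, m.degree
  have hA' : P (aff k A') := by
    refine of_cone (S := ({0, 1} : Set k)) hP (Or.inl rfl) (Or.inr rfl) (fun a b c T hT => ?_)
      (D := n) (by omega) G (Ideal.Quotient.mkₐ k _) ?_ (Ideal.Quotient.mkₐ_surjective k _)
      (Ideal.Quotient.mkₐ_ker k _) hG
    · obtain ⟨E, hE'⟩ := Pool.Agent.Helper5.WS.trip_of_tri T hT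
      have h1 : P (hypS T) := by
        rw [hE']
        exact hE a b c E
      exact h1
    · intro g hg m hm
      have h1 : m.degree ≤ ∑ m ∈ g.support, m.degree :=
        Finset.single_le_sum (f := fun m : Fin N →₀ ℕ => m.degree) (fun _ _ => Nat.zero_le _) hm
      have h2 : ∑ m ∈ g.support, m.degree ≤ ∑ g ∈ G, ∑ m ∈ g.support, m.degree :=
        Finset.single_le_sum (f := fun g : MvPolynomial (Fin N) k => ∑ m ∈ g.support, m.degree)
          (fun _ _ => Nat.zero_le _) hg
      omega
  exact hc (affMap ψ) (ft_aff True) (closed_affMap ψ hψ)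
    (Pool.Agent.Helper5.WS.open_affMap ψ hψ e he hker) hA'

variable {C : Type u} [Category.{v} C] [Abelian C]

variable {D : GrThy k C}

/-- All smooth proper schemes and the hypersurfaces of sets of triples. -/
theorem trip_class [CharZero k] [Algebra.IsAlgebraic ℚ k] (hD : IsGrThy D) (hp : IsPure D)
    (hR : Resolution k) (hc : Clopen D) {S : C → Prop} (hS : IsAdd D.T S)
    (h0 : ∀ i w, S (D.G i w (aff k k))) :
    ForSmoothProper (fun X => ∀ i, S (D.G i i X)) ⊤ ↔
      ∀ (a b c : ℕ) (E : Finset (Fin a × Fin b × Fin c)) (i w : ℤ), S (D.G i w (tripS k E)) := by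
  have hB := bnd_gr hD hS h0
  constructor
  · intro h a b c E
    have h1 : ForSmoothProper (fun X => ∀ i w, S (D.G i w X)) ⊤ := by
      intro X hX h1 h2 hd i w
      by_cases hw : w = i
      · subst hw
        exact h X hX h1 h2 hd w
      · exact S_zero hS (h0 0 0) (hp X hX h1 h2 i w hw)
    exact hR _ (resClosed_of_bnd hB) ⊤ h1 _ (ft_aff True) le_top
  · intro h X hX _ _ _ i
    refine trip_universal hB.toUni ?_ h X hX i i
    intro Z X i hX h1 h2 h3 n w
    obtain ⟨s, r, hsr⟩ := hc i hX h1 h2 n w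
    exact hS.retract s r hsr (h3 n w)

end Pool.Agent.Helper84.GD
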